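import Pool.Agent.Helper24.FN.I

set_option autoImplicit false

/-!
# Edwards-Anderson ground states in the plane: if their number is finite

The couplings on the bonds of `ℤ²` are iid with any law without atoms and with a finite first
moment. For every `n` let `σ_n` be a ground state in the box `[0, n] ^ 2` with an arbitrary boundary
term which does not depend on the couplings in the box (a *family*).

**Theorem.** There are almost surely infinitely many ground states in infinite volume, or there is a
number `k` such that there are almost surely exactly `k` pairs `σ, -σ` of ground states, and: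

(1) The ground states are visible in finite volume: there are `k` families such that almost surely,
for all `n`, their restrictions to the box are the restrictions of the `k` pairs.

(2) Every family disagrees with these `k` families, on average, with a probability which tends to
`χ i`, the probability that two independent uniformly chosen ground states disagree at a bond of
the direction `i`.

(3) If the couplings in arbitrary sets of bonds are hidden then the conditional expectations of the
bonds of a family are asymptotically those of the average over all ground states.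

(4) If every coupling is resampled with probability `δ` then the bonds of a family before the
resampling and of the same or another family after it disagree, asymptotically and on average, as
often as two independent uniformly chosen ground states for the two couplings. This number `ψ i δ`
tends to `χ i` at `0`.

(5) `k = 1` if and only if `χ i = 0`, if and only if all families agree asymptotically.

The proof of (1): ground states of different pairs are separated by infinite energy barriers; so the
ground states which can be reached from each other at a finite cost after a change of the couplings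
in the box form `k` classes, which are determined by the couplings outside of the box, and the
minimal energy of a configuration in a class with given spins at the boundary is a boundary term.
-/

open MeasureTheory Filter Topology

namespace Pool.Agent.Results.MP_37ff18_mp.FiniteNumber

/-- The bond `(v, i)` joins the sites `v` and `v + e_i` of `ℤ²`. -/
abbrev Bond : Type := (Fin 2 → ℤ) × Fin 2

/-- iid couplings with law `μ` -/
noncomputable abbrev law (μ : Measure ℝ) [IsProbabilityMeasure μ] : Measure (Bond → ℝ) :=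
  Measure.infinitePi fun _ : Bond => μ

/-- the product of the spins at the two ends of the bond `e` -/
def bondSpin (s : (Fin 2 → ℤ) → ℝ) (e : Bond) : ℝ :=
  s e.1 * s (e.1 + (Pi.single e.2 (1 : ℤ) : Fin 2 → ℤ))

/-- the box `[0, n] ^ 2` -/
def box (n : ℕ) : Set (Fin 2 → ℤ) := {x | ∀ i, 0 ≤ x i ∧ x i ≤ n}

/-- both ends of the bond are in the box `[0, n] ^ 2` -/
def InBox (n : ℕ) (e : Bond) : Prop :=
  e.1 ∈ box n ∧ e.1 + (Pi.single e.2 (1 : ℤ) : Fin 2 → ℤ) ∈ box n

/-- A boundary term for the box `[0, n] ^ 2`: an arbitrary (measurable) function of the couplings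
outside of the box and of the spins at the boundary of the box. -/
structure IsBoundaryTerm (n : ℕ) (w : (Bond → ℝ) → ((Fin 2 → ℤ) → ℝ) → ℝ) : Prop where
  /-- it does not depend on the couplings in the box -/
  couplings : ∀ J J' s, (∀ e, ¬ InBox n e → J e = J' e) → w J s = w J' s
  /-- it depends on the spins at the boundary of the box only -/
  spins : ∀ J s s', (∀ x ∈ box n, (∃ i, x i = 0 ∨ x i = n) → s x = s' x) → w J s = w J s'
  /-- measurability -/
  measurable : ∀ s, Measurable fun J => w J s

/-- the energy of the spins `s` in the box `[0, n] ^ 2` with the boundary term `w` -/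
noncomputable def energy (n : ℕ) (w : (Bond → ℝ) → ((Fin 2 → ℤ) → ℝ) → ℝ) (J : Bond → ℝ)
    (s : (Fin 2 → ℤ) → ℝ) : ℝ :=
  w J s - ∑ᶠ (e : Bond) (_ : InBox n e), J e * bondSpin s e

/-- `s` is a ground state in the box -/
def IsBoxGroundState (n : ℕ) (w : (Bond → ℝ) → ((Fin 2 → ℤ) → ℝ) → ℝ) (J : Bond → ℝ)
    (s : (Fin 2 → ℤ) → ℝ) : Prop :=
  (∀ x, s x = 1 ∨ s x = -1) ∧
  ∀ s' : (Fin 2 → ℤ) → ℝ, (∀ x, s' x = 1 ∨ s' x = -1) → energy n w J s ≤ energy n w J s'

/-- a sequence of boundary terms `w n` and of ground states `σ n J` in the boxes `[0, n] ^ 2` for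
the couplings `J` -/
structure IsFamily (μ : Measure ℝ) [IsProbabilityMeasure μ]
    (w : ℕ → (Bond → ℝ) → ((Fin 2 → ℤ) → ℝ) → ℝ)
    (σ : ℕ → (Bond → ℝ) → (Fin 2 → ℤ) → ℝ) : Prop where
  /-- boundary terms -/
  boundary : ∀ n, IsBoundaryTerm n (w n)
  /-- measurability -/
  measurable : ∀ n, Measurable (σ n)
  /-- ground states -/
  ground : ∀ n, ∀ᵐ J ∂(law μ), IsBoxGroundState n (w n) J (σ n J)

/-- `σ` is an infinite-volume ground state for the couplings `J`: every change at finitely many
sites (at least one) increases the energy `-∑ J_e σ σ` (the sum of the differences over all bonds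
is a finite sum). -/
def IsGroundState (J : Bond → ℝ) (σ : (Fin 2 → ℤ) → ℝ) : Prop :=
  (∀ x, σ x = 1 ∨ σ x = -1) ∧
  ∀ ρ : (Fin 2 → ℤ) → ℝ, (∀ x, ρ x = 1 ∨ ρ x = -1) → {x | ρ x ≠ σ x}.Finite → ρ ≠ σ →
    0 < ∑ᶠ e : Bond, J e * (bondSpin σ e - bondSpin ρ e)

/-- the positions in the box `[0, n) ^ 2` -/
noncomputable def sites (n : ℕ) : Finset (Fin 2 → ℤ) :=
  Fintype.piFinset fun _ : Fin 2 => Finset.Ico (0 : ℤ) n

/-- the average over the positions `a` of the probability of a disagreement at the bond `(a, i)` -/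
noncomputable def disagreement (μ : Measure ℝ) [IsProbabilityMeasure μ] (i : Fin 2) (n : ℕ)
    (s s' : (Bond → ℝ) → (Fin 2 → ℤ) → ℝ) : ℝ :=
  (∑ a ∈ sites n, (law μ).real {J | bondSpin (s J) (a, i) ≠ bondSpin (s' J) (a, i)}) / (n : ℝ) ^ 2

open Classical in
/-- the couplings `K` in the set `U` of bonds and the couplings `J` outside of `U` -/
noncomputable def resampled (U : Set Bond) (J K : Bond → ℝ) : Bond → ℝ :=
  fun e => if e ∈ U then K e else J e

/-- the conditional expectation of `f` given the couplings outside of the set `U`: the couplings in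
`U` are averaged -/
noncomputable def condOutside (μ : Measure ℝ) [IsProbabilityMeasure μ] (U : Set Bond)
    (f : (Bond → ℝ) → ℝ) (J : Bond → ℝ) : ℝ :=
  ∫ K, f (resampled U J K) ∂(law μ)

/-- the uniform law on `[0, 1]` -/
noncomputable abbrev unif : Measure ℝ := volume.restrict (Set.Icc (0 : ℝ) 1)

instance : IsProbabilityMeasure unif := ⟨by simp [unif]⟩

/-- independent marks at the bonds, uniformly distributed in `[0, 1]` -/
noncomputable abbrev marks : Measure (Bond → ℝ) := Measure.infinitePi fun _ : Bond => unif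

/-- the bonds with a mark less than `δ`: every bond is in this set with probability `δ` -/
def marked (δ : ℝ) (ξ : Bond → ℝ) : Set Bond := {e | ξ e < δ}

/-- the response to noise: the average over the positions `a` of the probability that the bond
`(a, i)` of `s`, for the couplings `J`, is not the bond `(a, i)` of `s'` for the couplings
`resampled (marked δ ξ) J K` (every coupling of `J` is resampled with probability `δ`) -/
noncomputable def response (μ : Measure ℝ) [IsProbabilityMeasure μ] (δ : ℝ) (i : Fin 2) (n : ℕ)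
    (s s' : (Bond → ℝ) → (Fin 2 → ℤ) → ℝ) : ℝ :=
  (∑ a ∈ sites n, (marks.prod ((law μ).prod (law μ))).real
    {p | bondSpin (s p.2.1) (a, i) ≠
      bondSpin (s' (resampled (marked δ p.1) p.2.1 p.2.2)) (a, i)}) / (n : ℝ) ^ 2

/-- the average of the bond `e` over all ground states for the couplings `J` (if their number is
finite) -/
noncomputable def meanBond (J : Bond → ℝ) (e : Bond) : ℝ :=
  (∑ᶠ σ ∈ {σ | IsGroundState J σ}, bondSpin σ e) / ({σ | IsGroundState J σ}.ncard : ℝ)

/-- the probability that a uniformly chosen ground state for the couplings `J` and an independent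
uniformly chosen ground state for the couplings `J'` disagree at the bond `e` (if the numbers of
ground states are finite) -/
noncomputable def split (J J' : Bond → ℝ) (e : Bond) : ℝ :=
  ({p : ((Fin 2 → ℤ) → ℝ) × ((Fin 2 → ℤ) → ℝ) | IsGroundState J p.1 ∧ IsGroundState J' p.2 ∧
    bondSpin p.1 e ≠ bondSpin p.2 e}.ncard : ℝ) /
      (({σ | IsGroundState J σ}.ncard : ℝ) * ({σ | IsGroundState J' σ}.ncard : ℝ))

/-- the probability that two independent uniformly chosen ground states for the same couplings
disagree at a bond of the direction `i` -/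
noncomputable def chaos (μ : Measure ℝ) [IsProbabilityMeasure μ] (i : Fin 2) : ℝ :=
  ∫ J, split J J (0, i) ∂(law μ)

/-- the probability that independent uniformly chosen ground states, one for the couplings `J` and
one for the couplings after every coupling has been resampled with probability `δ`, disagree at a
bond of the direction `i` -/
noncomputable def noise (μ : Measure ℝ) [IsProbabilityMeasure μ] (δ : ℝ) (i : Fin 2) : ℝ :=
  ∫ p, split p.2.1 (resampled (marked δ p.1) p.2.1 p.2.2) (0, i)
    ∂(marks.prod ((law μ).prod (law μ)))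

/-- the average over the positions `a` with `(a, i)` in `U` (all others count `0`) of `E |E [bond
of s - average of the bond over all ground states | the couplings outside of U, and the coupling at
the bond]|` -/
noncomputable def visible (μ : Measure ℝ) [IsProbabilityMeasure μ] (i : Fin 2) (n : ℕ)
    (U : Set Bond) (s : (Bond → ℝ) → (Fin 2 → ℤ) → ℝ) : ℝ :=
  (∑ a ∈ sites n, Set.indicator U (fun e => ∫ J, |condOutside μ (U \ {e})
    (fun K => bondSpin (s K) e - meanBond K e) J| ∂(law μ)) (a, i)) / (n : ℝ) ^ 2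

section bridge

open Pool.Agent.K3h93.EA Pool.Agent.Helper24.EA Pool.Agent.Helper24.NZ Pool.Agent.Helper24.FN
open Pool.Agent.K3h93.EF hiding psi_eq psi_le psi_meas upper1 psi_le' step1 step2 step3 scale_est main_est main_abs

lemma inBox_iff (n : ℕ) (e : Bond) : InBox n e ↔ e ∈ FB n := FB_iff.symm

lemma energy_eq (n : ℕ) (w : (Bond → ℝ) → ((Fin 2 → ℤ) → ℝ) → ℝ) (J : Bond → ℝ)
    (s : (Fin 2 → ℤ) → ℝ) : energy n w J s = -HE n (fun J s => -w J s) J s := by
  unfold energy HE
  have h1 : ∑ᶠ (e : Bond) (_ : InBox n e), J e * bondSpin s e = ∑ e ∈ FB n, J e * bp s e := by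
    simp only [inBox_iff]
    exact finsum_mem_finset_eq_sum _ _
  rw [h1]
  ring

lemma sq_of {μ : Measure ℝ} [IsProbabilityMeasure μ]
    {w : ℕ → (Bond → ℝ) → ((Fin 2 → ℤ) → ℝ) → ℝ} {σ : ℕ → (Bond → ℝ) → (Fin 2 → ℤ) → ℝ}
    (h : IsFamily μ w σ) : Sq μ (fun n J s => -w n J s) σ := by
  refine ⟨fun n => ⟨fun J J' s hJ => ?_, fun J s s' hs => ?_, fun s => ?_⟩, h.measurable,
    fun n => ?_⟩
  · rw [(h.boundary n).couplings J J' s fun e he => hJ e fun h' => he ((inBox_iff n e).2 h')]
  · rw [(h.boundary n).spins J s s' hs]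
  · exact ((h.boundary n).measurable s).neg
  · filter_upwards [h.ground n] with J hJ
    refine ⟨hJ.1, fun s' hs' => ?_⟩
    have h1 := hJ.2 s' hs'
    rw [energy_eq, energy_eq] at h1
    exact neg_le_neg_iff.1 h1

lemma family_of {μ : Measure ℝ} [IsProbabilityMeasure μ]
    {w : ℕ → (Bond → ℝ) → ((Fin 2 → ℤ) → ℝ) → ℝ} {σ : ℕ → (Bond → ℝ) → (Fin 2 → ℤ) → ℝ}
    (h : Sq μ w σ) : IsFamily μ (fun n J s => -w n J s) σ := by
  refine ⟨fun n => ⟨fun J J' s hJ => ?_, fun J s s' hs => ?_, fun s => ?_⟩, h.meas, fun n => ?_⟩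
  · rw [(h.bt n).coup J J' s fun e he => hJ e fun h' => he ((inBox_iff n e).1 h')]
  · rw [(h.bt n).spins J s s' hs]
  · exact ((h.bt n).meas s).neg
  · filter_upwards [h.gs n] with J hJ
    refine ⟨hJ.1, fun s' hs' => ?_⟩
    have h1 := hJ.2 s' hs'
    rw [energy_eq, energy_eq]
    simp only [neg_neg]
    exact neg_le_neg h1

lemma st_zero (a : Fin 2 → ℤ) (i : Fin 2) : st a ((0, i) : E) = (a, i) := by
  unfold st; simp

lemma disagreement_eq (μ : Measure ℝ) [IsProbabilityMeasure μ] (i : Fin 2) (n : ℕ)
    (s s' : (Bond → ℝ) → (Fin 2 → ℤ) → ℝ) : disagreement μ i n s s' = Ds μ (0, i) s s' n := by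
  unfold disagreement Ds
  simp only [st_zero]
  rfl

lemma resampled_eq (U : Set Bond) (J K : Bond → ℝ) : resampled U J K = patch U J K := by
  funext e
  unfold resampled
  by_cases h : e ∈ U
  · rw [if_pos h, patch_mem h]
  · rw [if_neg h, patch_not h]

lemma condOutside_eq (μ : Measure ℝ) [IsProbabilityMeasure μ] (U : Set Bond) (f : (Bond → ℝ) → ℝ) :
    condOutside μ U f = CE μ Uᶜ f := by
  funext J
  unfold condOutside CE
  simp only [resampled_eq, compl_compl]

lemma marked_eq (δ : ℝ) (ξ : Bond → ℝ) : marked δ ξ = (kn δ ξ)ᶜ := by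
  ext e
  show ξ e < δ ↔ ¬ δ ≤ ξ e
  exact not_le.symm

lemma marked_compl (δ : ℝ) (ξ : Bond → ℝ) (e : Bond) :
    (marked δ ξ \ {e})ᶜ = insert e (kn δ ξ) := by
  rw [marked_eq, Set.sdiff_eq, Set.compl_inter, compl_compl, compl_compl, Set.union_comm]
  rfl

lemma diff_compl (U : Set Bond) (e : Bond) : (U \ {e})ᶜ = insert e Uᶜ := by
  rw [Set.sdiff_eq, Set.compl_inter, compl_compl, Set.union_comm]
  rfl

lemma spin_ae {μ : Measure ℝ} [IsProbabilityMeasure μ]
    {w : ℕ → (Bond → ℝ) → ((Fin 2 → ℤ) → ℝ) → ℝ} {σ : ℕ → (Bond → ℝ) → (Fin 2 → ℤ) → ℝ}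
    (h : IsFamily μ w σ) (n : ℕ) : ∀ᵐ J ∂(Measure.infinitePi fun _ : E => μ), Spin (σ n J) :=
  (h.ground n).mono fun _ hJ => hJ.1

lemma unif_Iio {δ : ℝ} (h0 : 0 < δ) (h1 : δ ≤ 1) : unif.real (Set.Iio δ) = δ := by
  have h2 : Set.Iio δ ∩ Set.Icc (0 : ℝ) 1 = Set.Ico 0 δ := by
    ext x
    simp only [Set.mem_inter_iff, Set.mem_Iio, Set.mem_Icc, Set.mem_Ico]
    constructor
    · rintro ⟨h3, h4, _⟩
      exact ⟨h4, h3⟩
    · rintro ⟨h3, h4⟩
      exact ⟨h4, h3, by linarith⟩
  rw [measureReal_restrict_apply measurableSet_Iio, h2, Real.volume_real_Ico_of_le h0.le, sub_zero]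

lemma unif_zero : Tendsto (fun δ : ℝ => unif.real (Set.Iio δ)) (𝓝[>] 0) (𝓝 0) := by
  have h1 : Tendsto (fun δ : ℝ => δ) (𝓝[>] 0) (𝓝 0) := tendsto_nhdsWithin_of_tendsto_nhds tendsto_id
  refine h1.congr' ?_
  filter_upwards [Ioc_mem_nhdsGT (show (0 : ℝ) < 1 by norm_num)] with δ hδ
  exact (unif_Iio hδ.1 hδ.2).symm

lemma response_eq {μ : Measure ℝ} [IsProbabilityMeasure μ] (δ : ℝ) (i : Fin 2) {n : ℕ}
    (hn : 1 ≤ n) {s s' : (Bond → ℝ) → (Fin 2 → ℤ) → ℝ} (hs : Measurable s) (hs' : Measurable s')
    (h : ∀ᵐ J ∂(Measure.infinitePi fun _ : E => μ), Spin (s J))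
    (h' : ∀ᵐ J ∂(Measure.infinitePi fun _ : E => μ), Spin (s' J)) :
    response μ δ i n s s' = (1 - (∑ a ∈ pos n, Cr μ unif δ (cb s (st a (0, i)))
      (cb s' (st a (0, i)))) / (n : ℝ) ^ 2) / 2 := by
  rw [← avg_half hn]
  unfold response
  congr 1
  refine Finset.sum_congr rfl fun a _ => ?_
  have h1 := resp_eq (μ := μ) (ν := unif) hs hs' h h' δ (st a (0, i))
  rw [← h1, st_zero]
  simp only [resampled_eq, marked_eq]
  rfl

lemma gs_iff {J : Bond → ℝ} {σ : (Fin 2 → ℤ) → ℝ} :
    IsGroundState J σ ↔ Pool.Agent.R239.EA.GA J σ := by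
  rw [Pool.Agent.R239.EA.GA_iff]
  rfl

lemma set_eq (J : Bond → ℝ) : {σ | IsGroundState J σ} = GAll J := by
  ext σ
  exact gs_iff

variable {μ : Measure ℝ} [IsProbabilityMeasure μ] {k : ℕ}

lemma meanBond_eq (hk : 0 < k) {J : Bond → ℝ} (hJ : (GZ J).ncard = k) (hf : (GAll J).Finite)
    (e : Bond) : meanBond J e = Mb k e J := by
  rw [← mean_eq hk hJ hf e]
  unfold meanBond
  rw [set_eq]
  rfl

lemma split_eq' (hk : 0 < k) {J J' : Bond → ℝ} (hJ : (GZ J).ncard = k) (hf : (GAll J).Finite)
    (hJ' : (GZ J').ncard = k) (hf' : (GAll J').Finite) (e : Bond) :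
    split J J' e = (1 - Mb k e J * Mb k e J') / 2 := by
  rw [← split_eq hk hJ hf hJ' hf' e]
  unfold split
  rw [set_eq, set_eq]
  simp only [gs_iff]
  rfl

lemma chaos_eq (hk : 0 < k) (hN : ∀ᵐ J ∂(law μ), (GAll J).Finite ∧ (GZ J).ncard = k) (i : Fin 2) :
    chaos μ i = Helper24.NZ.chi μ (Mb k (0, i)) := by
  unfold chaos Helper24.NZ.chi
  have h1 : ∫ J, split J J (0, i) ∂(law μ) = ∫ J, (1 - Mb k (0, i) J ^ 2) / 2 ∂(law μ) := by
    refine integral_congr_ae ?_
    filter_upwards [hN] with J hJ
    rw [split_eq' hk hJ.2 hJ.1 hJ.2 hJ.1, sq]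
  rw [h1, integral_div, integral_sub (integrable_const _) (m2_int (Mb_meas k _) (Mb_le hk _)),
    integral_const, probReal_univ, one_smul]

lemma noise_eq (hk : 0 < k) (hN : ∀ᵐ J ∂(law μ), (GAll J).Finite ∧ (GZ J).ncard = k) (δ : ℝ)
    (i : Fin 2) : noise μ δ i = rf μ unif (Mb k (0, i)) δ := by
  have hL : (marks.prod ((law μ).prod (law μ))) = PQ μ unif := rfl
  unfold noise rf Cr
  rw [hL]
  have h1 : ∀ᵐ p ∂(PQ μ unif), (GAll p.2.1).Finite ∧ (GZ p.2.1).ncard = k :=
    PQ_fst.quasiMeasurePreserving.ae hN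
  have h2 : ∀ᵐ p ∂(PQ μ unif), (GAll (mx δ p.1 p.2.1 p.2.2)).Finite ∧
      (GZ (mx δ p.1 p.2.1 p.2.2)).ncard = k := (mx_law δ).quasiMeasurePreserving.ae hN
  have h3 : ∫ p, split p.2.1 (resampled (marked δ p.1) p.2.1 p.2.2) (0, i) ∂(PQ μ unif) =
      ∫ p, (1 - Mb k (0, i) p.2.1 * Mb k (0, i) (mx δ p.1 p.2.1 p.2.2)) / 2 ∂(PQ μ unif) := by
    refine integral_congr_ae ?_
    filter_upwards [h1, h2] with p h4 h5
    have h6 : resampled (marked δ p.1) p.2.1 p.2.2 = mx δ p.1 p.2.1 p.2.2 := by
      rw [resampled_eq, marked_eq]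
      rfl
    rw [h6, split_eq' hk h4.2 h4.1 h5.2 h5.1]
  have i1 : Integrable (fun p : (Bond → ℝ) × ((Bond → ℝ) × (Bond → ℝ)) =>
      Mb k (0, i) p.2.1 * Mb k (0, i) (mx δ p.1 p.2.1 p.2.2)) (PQ μ unif) := by
    refine PQ_bdd (C := 1) (((Mb_meas k _).comp (measurable_fst.comp measurable_snd)).mul
      ((Mb_meas k _).comp (mx_meas δ))) fun p => ?_
    rw [abs_mul]
    exact mul_le_one₀ (Mb_le hk _ _) (abs_nonneg _) (Mb_le hk _ _)
  rw [h3, integral_div, integral_sub (integrable_const _) i1, integral_const, probReal_univ,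
    one_smul]

lemma visible_eq (hk : 0 < k) (hN : ∀ᵐ J ∂(law μ), (GAll J).Finite ∧ (GZ J).ncard = k) (i : Fin 2)
    (n : ℕ) (U : Set Bond) {s : (Bond → ℝ) → (Fin 2 → ℤ) → ℝ}
    (h : ∀ᵐ J ∂(Measure.infinitePi fun _ : E => μ), Spin (s J)) :
    visible μ i n U s = (∑ a ∈ pos n, Set.indicator U (fun e =>
      nI μ (insert e Uᶜ) (fun J => cb s e J - Mb k e J)) (st a (0, i))) / (n : ℝ) ^ 2 := by
  unfold visible
  have h1 : ∀ e : Bond, ∫ J, |condOutside μ (U \ {e}) (fun K => bondSpin (s K) e - meanBond K e) J|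
      ∂(law μ) = nI μ (insert e Uᶜ) (fun J => cb s e J - Mb k e J) := by
    intro e
    rw [condOutside_eq, diff_compl]
    refine nI_congr ?_ _
    filter_upwards [h, hN] with J h1 h2
    rw [cb_of h1, meanBond_eq hk h2.2 h2.1]
    rfl
  simp only [h1, st_zero]
  rfl

end bridge

open Pool.Agent.K3h93.EA Pool.Agent.Helper24.EA Pool.Agent.Helper24.NZ Pool.Agent.Helper24.FN in
/-- **Theorem.** Let the couplings on the bonds of `ℤ²` be iid with a law `μ` without atoms and with
a finite first moment. Then there are almost surely infinitely many ground states, or there is a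
number `k > 0` such that there are almost surely exactly `2 * k` ground states, and the following
holds for all families, that is, for all sequences of boundary terms for the boxes `[0, n] ^ 2`
which do not depend on the couplings in the box.

(1) There are `k` families `g c` such that almost surely, for every `n`, the bonds of the `g c n` in
the box are the bonds of the `k` pairs `ρ c, -ρ c` of ground states, one for each.

(2) The disagreement of an arbitrary family with `g c`, on average over `c` and over the positions,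
tends to `chaos μ i`, the probability that two independent uniformly chosen ground states disagree
at a bond of the direction `i`. Two families disagree on average with probability at most
`2 * chaos μ i + o(1)`.

(3) For arbitrary sets `U n` of bonds: if the couplings in `U n` are hidden then the conditional
expectations of the bonds of a family in `U n`, given all other couplings and the coupling at the
bond, are asymptotically those of the average of the bond over all ground states.

(4) If every coupling is resampled with probability `δ` then the bonds of a family before the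
resampling and of a family after the resampling disagree on average with a probability which tends
to `noise μ δ i`, the probability that independent uniformly chosen ground states for the two
couplings disagree, for any two families. Moreover `noise μ δ i` tends to `chaos μ i` as `δ → 0`.

(5) `k = 1` if and only if `chaos μ i = 0`, and if and only if all families agree asymptotically. -/
theorem result (μ : Measure ℝ) [IsProbabilityMeasure μ] (hatom : ∀ x, μ {x} = 0)
    (hmean : Integrable (fun x : ℝ => x) μ) :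
    (∀ᵐ J ∂(law μ), {σ | IsGroundState J σ}.Infinite) ∨
    ∃ k : ℕ, 0 < k ∧
      (∀ᵐ J ∂(law μ), {σ | IsGroundState J σ}.Finite ∧ {σ | IsGroundState J σ}.ncard = 2 * k) ∧
      (∃ (w : Fin k → ℕ → (Bond → ℝ) → ((Fin 2 → ℤ) → ℝ) → ℝ)
        (g : Fin k → ℕ → (Bond → ℝ) → (Fin 2 → ℤ) → ℝ), (∀ c, IsFamily μ (w c) (g c)) ∧
        -- (1)
        (∀ᵐ J ∂(law μ), ∀ n, ∃ ρ : Fin k → (Fin 2 → ℤ) → ℝ,
          (∀ σ, IsGroundState J σ ↔ ∃ c, σ = ρ c ∨ σ = -ρ c) ∧
          (∀ c c', c ≠ c' → ρ c ≠ ρ c' ∧ ρ c ≠ -ρ c') ∧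
          ∀ c e, InBox n e → bondSpin (g c n J) e = bondSpin (ρ c) e) ∧
        -- (2)
        ∀ w' s, IsFamily μ w' s → ∀ i, Tendsto (fun n =>
          (∑ c, disagreement μ i n (s n) (g c n)) / (k : ℝ)) atTop (𝓝 (chaos μ i))) ∧
      (∀ w s w' s', IsFamily μ w s → IsFamily μ w' s' → ∀ i, ∀ ε > 0, ∀ᶠ n in atTop,
        disagreement μ i n (s n) (s' n) < 2 * chaos μ i + ε) ∧
      -- (3)
      (∀ w s, IsFamily μ w s → ∀ (i : Fin 2) (U : ℕ → Set Bond),
        Tendsto (fun n => visible μ i n (U n) (s n)) atTop (𝓝 0)) ∧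
      -- (4)
      (∀ w s w' s', IsFamily μ w s → IsFamily μ w' s' → ∀ i δ, 0 < δ → δ ≤ 1 →
        Tendsto (fun n => response μ δ i n (s n) (s' n)) atTop (𝓝 (noise μ δ i))) ∧
      (∀ i, Tendsto (fun δ => noise μ δ i) (𝓝[>] 0) (𝓝 (chaos μ i))) ∧
      -- (5)
      ∀ i, (k = 1 ↔ chaos μ i = 0) ∧
        (k = 1 ↔ ∀ w s w' s', IsFamily μ w s → IsFamily μ w' s' →
          Tendsto (fun n => disagreement μ i n (s n) (s' n)) atTop (𝓝 0)) := by
  rcases dich (μ := μ) hatom with hinf | ⟨k, hk, hN⟩
  · left
    filter_upwards [hinf] with J hJ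
    rw [set_eq]
    exact hJ
  right
  have hk' : (0 : ℝ) < k := by exact_mod_cast hk
  have hN' : ∀ᵐ J ∂(Measure.infinitePi fun _ : E => μ), (GZ J).ncard = k := hN.mono fun J hJ => hJ.2
  have hm : ∀ i : Fin 2, Um μ (0, i) (Mb k (0, i)) := fun i => Um_Mb hmean hatom hk hN' i
  have hch : ∀ i, chaos μ i = Helper24.NZ.chi μ (Mb k (0, i)) := chaos_eq hk hN
  have hki : ∀ i j, ki μ (Mb k (0, i)) = ki μ (Mb k (0, j)) := fun i j => ki_eq hm i j
  have h1 : ∀ i, ki μ (Mb k (0, i)) ≤ chaos μ i := fun i => by
    rw [hch]; exact ki_le_chi (hm i).meas (hm i).le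
  have h2 : ∀ i, chaos μ i ≤ 2 * ki μ (Mb k (0, i)) := fun i => by
    rw [hch]; exact chi_le_ki (hm i).meas (hm i).le
  have h3 : ∀ i, 0 ≤ ki μ (Mb k (0, i)) := fun i => (hm i).ki_nonneg
  have hup : ∀ w s w' s', IsFamily μ w s → IsFamily μ w' s' → ∀ i, ∀ ε > 0, ∀ᶠ n in atTop,
      disagreement μ i n (s n) (s' n) < 2 * chaos μ i + ε := by
    intro w s w' s' h h' i ε hε
    simp only [disagreement_eq]
    refine ((hm i).ds_le (sq_of h) (sq_of h') hε).mono fun n hn => ?_
    have := h1 i
    linarith
  have hdn : ∀ i n (s s' : (Bond → ℝ) → (Fin 2 → ℤ) → ℝ), 0 ≤ disagreement μ i n s s' :=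
    fun i n s s' => div_nonneg (Finset.sum_nonneg fun _ _ => measureReal_nonneg) (sq_nonneg _)
  obtain ⟨w0, g, hg, hp⟩ := exists_fam hatom hk hN'
  have hfg : ∀ c, IsFamily μ (fun n J s => -w0 c n J s) (g c) := fun c => family_of (hg c)
  have havg : ∀ w' s, IsFamily μ w' s → ∀ i, Tendsto (fun n =>
      (∑ c, disagreement μ i n (s n) (g c n)) / (k : ℝ)) atTop (𝓝 (chaos μ i)) := by
    intro w' s h i
    simp only [disagreement_eq]
    rw [hch]
    exact avg_dis hmean hatom hk hN' hg hp i (sq_of h)
  have hone : ∀ i, k = 1 ↔ chaos μ i = 0 := by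
    intro i
    constructor
    · intro hk1
      rw [hch]
      subst hk1
      unfold Helper24.NZ.chi
      have h4 : ∀ J : Bond → ℝ, Mb 1 (0, i) J ^ 2 = 1 := by
        intro J
        unfold Mb
        rcases (gn_spin 1 0 J).bp_cases (0, i) with h | h <;> simp [h]
      simp only [h4, integral_const, probReal_univ, one_smul, sub_self, zero_div]
    · intro h0
      refine one_of_chi hatom hk hN' fun j => ?_
      have h4 := h1 i
      have h5 := h2 j
      have h6 := h3 j
      rw [hki i j] at h4
      rw [← hch]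
      have h7 : 0 ≤ chaos μ j := (h3 j).trans (h1 j)
      linarith
  refine ⟨k, hk, ?_, ⟨fun c n J s => -w0 c n J s, g, hfg, ?_, havg⟩, hup, ?_, ?_, ?_, fun i =>
    ⟨hone i, ?_⟩⟩
  · filter_upwards [hN] with J hJ
    rw [set_eq]
    exact ⟨hJ.1, by rw [GAll_ncard hJ.1, hJ.2]⟩
  · filter_upwards [hp, hN] with J h4 h5 n
    obtain ⟨π, hπ, h6⟩ := h4 n
    obtain ⟨g1, g2, g3⟩ := gn_spec hk h5.2
    refine ⟨fun c => gn k (π c) J, fun σ => ?_, fun c c' hne => ?_, fun c e he => ?_⟩
    · constructor
      · intro hσ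
        obtain ⟨σ', h7, h8⟩ := GA.nz (gs_iff.1 hσ)
        obtain ⟨c0, hc0⟩ := g3 σ' h7
        obtain ⟨c, rfl⟩ := hπ.2 c0
        refine ⟨c, ?_⟩
        simp only
        rw [hc0]
        rcases h8 with rfl | rfl
        · exact Or.inl rfl
        · right
          rw [neg_neg]
      · rintro ⟨c, rfl | rfl⟩
        · exact gs_iff.2 (g1 _).1
        · exact gs_iff.2 (GA.ng (g1 _).1)
    · have h7 : gn k (π c) J ≠ gn k (π c') J := fun h => hne (hπ.1 (g2 _ _ h))
      exact ⟨h7, ne_of_GZ (g1 (π c')) (g1 (π c)) h7⟩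
    · exact (h6 c e ((inBox_iff n e).1 he)).symm
  · intro w s h i U
    refine (lim_mean hmean hatom hk hN' i (sq_of h) U).congr fun n => ?_
    exact (visible_eq hk hN i n (U n) (spin_ae h n)).symm
  · intro w s w' s' h h' i δ hδ hδ1
    have h4 : 0 < unif.real (Set.Iio δ) := by rw [unif_Iio hδ hδ1]; exact hδ
    have h5 := ((Cr_tendsto (ν := unif) hmean hatom h4 (hm i) (sq_of h)
      (sq_of h')).const_sub 1).div_const 2
    rw [noise_eq hk hN]
    refine h5.congr' ?_
    filter_upwards [eventually_ge_atTop 1] with n hn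
    exact (response_eq δ i hn (h.measurable n) (h'.measurable n) (spin_ae h n)
      (spin_ae h' n)).symm
  · intro i
    rw [hch]
    simp only [noise_eq hk hN]
    exact rf_zero (hm i).meas (hm i).le unif_zero
  · rw [hone i]
    constructor
    · intro h0 w s w' s' h h'
      rw [Metric.tendsto_nhds]
      intro ε hε
      filter_upwards [hup w s w' s' h h' i ε hε] with n hn
      rw [Real.dist_eq, sub_zero, abs_of_nonneg (hdn _ _ _ _)]
      rw [h0] at hn
      linarith
    · intro hall
      have hfam : IsFamily μ (fun n J s => -(fun _ _ _ => (0 : ℝ)) n J s) fr :=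
        family_of (fr_sq (μ := μ))
      have h4 := havg _ _ hfam i
      have h5 : Tendsto (fun n => (∑ c, disagreement μ i n (fr n) (g c n)) / (k : ℝ)) atTop
          (𝓝 ((∑ _c : Fin k, 0) / (k : ℝ))) :=
        (tendsto_finsetSum _ fun c _ => hall _ _ _ _ hfam (hfg c)).div_const _
      rw [Finset.sum_const_zero, zero_div] at h5
      exact tendsto_nhds_unique h4 h5

end Pool.Agent.Results.MP_37ff18_mp.FiniteNumber
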