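import Pool.Agent.Helper38.EB.B10

/-!
# Ground states from coupling-independent boundary conditions are separated by infinite barriers
-/

set_option autoImplicit false
set_option synthInstance.maxSize 2000

open MeasureTheory Filter Topology

namespace Pool.Agent.Results.MP_37ff18_mp.MetastateBarriers

/-- The bond `(x, i)` joins `x` and `x + e_i`. -/
abbrev Bond (d : ℕ) : Type := (Fin d → ℤ) × Fin d

/-- The second end of a bond. -/
def other {d : ℕ} (e : Bond d) : Fin d → ℤ := e.1 + (Pi.single e.2 (1 : ℤ) : Fin d → ℤ)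

/-- `σ` is an infinite-volume ground state for the couplings `J`. -/
def IsGroundState {d : ℕ} (J : Bond d → ℝ) (σ : (Fin d → ℤ) → ℝ) : Prop :=
  (∀ x, σ x = 1 ∨ σ x = -1) ∧
  ∀ ρ : (Fin d → ℤ) → ℝ, (∀ x, ρ x = 1 ∨ ρ x = -1) → {x | ρ x ≠ σ x}.Finite → ρ ≠ σ →
    0 < ∑ᶠ e : Bond d, J e * (σ e.1 * σ (other e) - ρ e.1 * ρ (other e))

/-- The configuration `σ` with the spins in the finite set `S` flipped. -/
def flip {d : ℕ} (S : Finset (Fin d → ℤ)) (σ : (Fin d → ℤ) → ℝ) : (Fin d → ℤ) → ℝ :=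
  fun x => if x ∈ S then -σ x else σ x

/-- The energy of the flip of `S`: energy of `flip S σ` minus energy of `σ`. -/
noncomputable def cost {d : ℕ} (J : Bond d → ℝ) (σ : (Fin d → ℤ) → ℝ)
    (S : Finset (Fin d → ℤ)) : ℝ :=
  ∑ᶠ e : Bond d, J e * (σ e.1 * σ (other e) - flip S σ e.1 * flip S σ (other e))

/-- The energy barrier from `σ` to `τ` is infinite: for every `K` there is a window `W` such that
every finite flip which turns `σ` into `τ` on `W` costs at least the energy `K`. -/
def InfiniteBarrier {d : ℕ} (J : Bond d → ℝ) (σ τ : (Fin d → ℤ) → ℝ) : Prop :=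
  ∀ K : ℝ, ∃ W : Finset (Fin d → ℤ), ∀ S : Finset (Fin d → ℤ),
    (∀ x ∈ W, flip S σ x = τ x) → K ≤ cost J σ S

/-- The box `[0, n]^d`. -/
def box (d n : ℕ) : Set (Fin d → ℤ) := {x | ∀ i, 0 ≤ x i ∧ x i ≤ n}

/-- The bonds with both ends in the box. -/
def InBox {d : ℕ} (n : ℕ) (e : Bond d) : Prop := e.1 ∈ box d n ∧ other e ∈ box d n

/-- A boundary term of the box: a measurable energy which depends on the spins at the boundary of
the box and on the couplings outside of the box only. -/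
structure IsBoundaryTerm {d : ℕ} (n : ℕ) (w : (Bond d → ℝ) → ((Fin d → ℤ) → ℝ) → ℝ) : Prop where
  /-- it does not depend on the couplings in the box -/
  couplings : ∀ J J' s, (∀ e, ¬ InBox n e → J e = J' e) → w J s = w J' s
  /-- it depends on the spins at the boundary of the box only -/
  spins : ∀ J s s', (∀ x ∈ box d n, (∃ i, x i = 0 ∨ x i = n) → s x = s' x) → w J s = w J s'
  /-- measurability -/
  measurable : ∀ s, Measurable fun J => w J s

/-- The energy in the box with the boundary term `w`. -/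
noncomputable def boxEnergy {d : ℕ} (n : ℕ) (w : (Bond d → ℝ) → ((Fin d → ℤ) → ℝ) → ℝ)
    (J : Bond d → ℝ) (s : (Fin d → ℤ) → ℝ) : ℝ :=
  w J s - ∑ᶠ (e : Bond d) (_ : InBox n e), J e * (s e.1 * s (other e))

/-- `s` has minimal energy in the box with the boundary term `w`. -/
def IsBoxGroundState {d : ℕ} (n : ℕ) (w : (Bond d → ℝ) → ((Fin d → ℤ) → ℝ) → ℝ)
    (J : Bond d → ℝ) (s : (Fin d → ℤ) → ℝ) : Prop :=
  (∀ x, s x = 1 ∨ s x = -1) ∧
  ∀ s' : (Fin d → ℤ) → ℝ, (∀ x, s' x = 1 ∨ s' x = -1) → boxEnergy n w J s ≤ boxEnergy n w J s'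

/-- A family of ground states in the boxes `[0, n]^d`, with boundary terms `w n` which do not
depend on the couplings in the box. -/
structure IsFamily {d : ℕ} (μ : Measure ℝ) [IsProbabilityMeasure μ]
    (w : ℕ → (Bond d → ℝ) → ((Fin d → ℤ) → ℝ) → ℝ)
    (σ : ℕ → (Bond d → ℝ) → (Fin d → ℤ) → ℝ) : Prop where
  /-- boundary terms -/
  boundary : ∀ n, IsBoundaryTerm n (w n)
  /-- measurability -/
  measurable : ∀ n, Measurable (σ n)
  /-- ground states -/
  ground : ∀ n, ∀ᵐ J ∂(Measure.infinitePi fun _ : Bond d => μ), IsBoxGroundState n (w n) J (σ n J)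

/-- Couplings and two spin configurations. -/
abbrev State (d : ℕ) : Type := (Bond d → ℝ) × (((Fin d → ℤ) → ℝ) × ((Fin d → ℤ) → ℝ))

/-- The couplings and the configurations seen from the site `a`. -/
def seenFrom {d : ℕ} (a : Fin d → ℤ) (ω : State d) : State d :=
  (fun e => ω.1 (e.1 + a, e.2), (fun x => ω.2.1 (x + a), fun x => ω.2.2 (x + a)))

/-- The expected value of `f` at the couplings and the two box configurations `s J`, `t J`, seen
from a uniformly chosen site `a` of `[0, n)^d`. -/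
noncomputable def boxMean {d : ℕ} (μ : Measure ℝ) [IsProbabilityMeasure μ]
    (s t : (Bond d → ℝ) → (Fin d → ℤ) → ℝ) (n : ℕ) (f : State d → ℝ) : ℝ :=
  (∑ a ∈ Fintype.piFinset fun _ : Fin d => Finset.Ico (0 : ℤ) n,
    ∫ J, f (seenFrom a (J, (s J, t J))) ∂(Measure.infinitePi fun _ : Bond d => μ)) / (n : ℝ) ^ d

/-- `M` is the limit law of the couplings and the two families, seen from a uniformly chosen site,
along the boxes of sizes `m 0, m 1, ...` (weak convergence). -/
def IsLimitLaw {d : ℕ} (μ : Measure ℝ) [IsProbabilityMeasure μ]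
    (σ τ : ℕ → (Bond d → ℝ) → (Fin d → ℤ) → ℝ) (m : ℕ → ℕ) (M : Measure (State d)) : Prop :=
  IsProbabilityMeasure M ∧ ∀ f : BoundedContinuousFunction (State d) ℝ,
    Tendsto (fun k => boxMean μ (σ (m k)) (τ (m k)) (m k) f) atTop (𝓝 (∫ ω, f ω ∂M))

/-- Let the couplings on the bonds of `ℤ^d`, `d ≥ 1`, be iid with the atomless law `μ`, and let
`σ n`, `τ n` be two families of ground states in the boxes `[0, n]^d` with boundary terms which do
not depend on the couplings in the box. Every sequence of boxes has a subsequence along which the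
couplings and the two configurations, seen from a uniformly chosen site, have a limit law; and
under every limit law the couplings have the given law, and almost surely the two configurations
are ground states which either agree up to a global flip or are separated by infinite energy
barriers in both directions. -/
theorem result (d : ℕ) (hd : 1 ≤ d) (μ : Measure ℝ) [IsProbabilityMeasure μ]
    (hatom : ∀ x, μ {x} = 0) (w w' : ℕ → (Bond d → ℝ) → ((Fin d → ℤ) → ℝ) → ℝ)
    (σ τ : ℕ → (Bond d → ℝ) → (Fin d → ℤ) → ℝ) (hσ : IsFamily μ w σ) (hτ : IsFamily μ w' τ)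
    (m : ℕ → ℕ) (hm : StrictMono m) :
    (∃ φ : ℕ → ℕ, StrictMono φ ∧ ∃ M : Measure (State d), IsLimitLaw μ σ τ (m ∘ φ) M) ∧
    ∀ M : Measure (State d), IsLimitLaw μ σ τ m M →
      M.map Prod.fst = (Measure.infinitePi fun _ : Bond d => μ) ∧
      ∀ᵐ ω ∂M, IsGroundState ω.1 ω.2.1 ∧ IsGroundState ω.1 ω.2.2 ∧
        (ω.2.2 = ω.2.1 ∨ ω.2.2 = -ω.2.1 ∨
          (InfiniteBarrier ω.1 ω.2.1 ω.2.2 ∧ InfiniteBarrier ω.1 ω.2.2 ω.2.1)) := by
  have hσ' : Helper38.EB.IsFamily μ w σ :=
    ⟨fun n => ⟨(hσ.boundary n).1, (hσ.boundary n).2, (hσ.boundary n).3⟩, hσ.2, hσ.3⟩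
  have hτ' : Helper38.EB.IsFamily μ w' τ :=
    ⟨fun n => ⟨(hτ.boundary n).1, (hτ.boundary n).2, (hτ.boundary n).3⟩, hτ.2, hτ.3⟩
  exact ⟨Helper38.EB.exists_limit μ hσ' hτ' hm,
    fun M hM => Helper38.EB.limit_main μ hd hatom hσ' hτ' hm hM⟩

end Pool.Agent.Results.MP_37ff18_mp.MetastateBarriers
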