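import Pool.Agent.Helper24.EA.H
import Pool.Agent.Helper24.NZ.L

set_option autoImplicit false

/-!
# Edwards-Anderson ground states in the plane: the response to noise is universal

The couplings on the bonds of `ℤ²` are iid with any law without atoms and with a finite first
moment. For every `n` let `σ_n` be a ground state in the box `[0, n] ^ 2` with an arbitrary boundary
term which does not depend on the couplings in the box (a *family*): free, periodic, antiperiodic or
fixed boundary conditions, or any other function of the spins at the boundary and of the couplings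
outside of the box.

**Theorem.** (1) Hide the couplings in an arbitrary set `U_n` of bonds. The conditional
expectations of the product of the spins at a bond `e` in `U_n`, given the couplings outside of
`U_n` and the coupling at `e`, are asymptotically the same for any two families, on average.

(2) Hide every coupling with probability `δ > 0`. Then the conditional expectation of the bond, given
the couplings which are not hidden, is asymptotically that of a function `m i` of the couplings seen
from the bond, and `m i` does not depend on the family.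

(3) Resample every coupling with probability `δ > 0`. The probability that the bond changes tends on
average to a number `ψ i δ`, which is the same for all families; it is also the same when the ground
states before and after the resampling are taken from two different families. The function `ψ i` is
nondecreasing. Its limit `χ i` at `0` is the size of the chaos of the disorder.

(4) Two families disagree asymptotically on a fraction of at most `2 * χ i` of the bonds, and every
family has a partner, whose boundary terms do not depend on any coupling, such that they disagree on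
a fraction of at least `χ i / 2` of the bonds. Hence the boundary conditions matter if and only if
there is chaos, and (5) then there are incongruent ground states in infinite volume.

The proof of (1) tilts the law of the hidden couplings in the blocks of a large window, at a random
scale, and compares the energies of the window for the two families while the other couplings are
frozen. The library theorem `UniversalBondMeans` is the case in which all couplings are hidden.
-/

open MeasureTheory Filter Topology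

namespace Pool.Agent.Results.MP_37ff18_mp.NoiseUniversality

/-- The bond `(v, i)` joins the sites `v` and `v + e_i` of `ℤ²`. -/
abbrev Bond : Type := (Fin 2 → ℤ) × Fin 2

/-- iid couplings with law `μ` -/
noncomputable abbrev law (μ : Measure ℝ) [IsProbabilityMeasure μ] : Measure (Bond → ℝ) :=
  Measure.infinitePi fun _ : Bond => μ

/-- the product of the spins at the two ends of the bond `e` -/
def bondSpin (s : (Fin 2 → ℤ) → ℝ) (e : Bond) : ℝ :=
  s e.1 * s (e.1 + (Pi.single e.2 (1 : ℤ) : Fin 2 → ℤ))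

/-- the box `[0, n] ^ 2` -/
def box (n : ℕ) : Set (Fin 2 → ℤ) := {x | ∀ i, 0 ≤ x i ∧ x i ≤ n}

/-- both ends of the bond are in the box `[0, n] ^ 2` -/
def InBox (n : ℕ) (e : Bond) : Prop :=
  e.1 ∈ box n ∧ e.1 + (Pi.single e.2 (1 : ℤ) : Fin 2 → ℤ) ∈ box n

/-- A boundary term for the box `[0, n] ^ 2`: an arbitrary (measurable) function of the couplings
outside of the box and of the spins at the boundary of the box. -/
structure IsBoundaryTerm (n : ℕ) (w : (Bond → ℝ) → ((Fin 2 → ℤ) → ℝ) → ℝ) : Prop where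
  /-- it does not depend on the couplings in the box -/
  couplings : ∀ J J' s, (∀ e, ¬ InBox n e → J e = J' e) → w J s = w J' s
  /-- it depends on the spins at the boundary of the box only -/
  spins : ∀ J s s', (∀ x ∈ box n, (∃ i, x i = 0 ∨ x i = n) → s x = s' x) → w J s = w J s'
  /-- measurability -/
  measurable : ∀ s, Measurable fun J => w J s

/-- the energy of the spins `s` in the box `[0, n] ^ 2` with the boundary term `w` -/
noncomputable def energy (n : ℕ) (w : (Bond → ℝ) → ((Fin 2 → ℤ) → ℝ) → ℝ) (J : Bond → ℝ)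
    (s : (Fin 2 → ℤ) → ℝ) : ℝ :=
  w J s - ∑ᶠ (e : Bond) (_ : InBox n e), J e * bondSpin s e

/-- `s` is a ground state in the box -/
def IsBoxGroundState (n : ℕ) (w : (Bond → ℝ) → ((Fin 2 → ℤ) → ℝ) → ℝ) (J : Bond → ℝ)
    (s : (Fin 2 → ℤ) → ℝ) : Prop :=
  (∀ x, s x = 1 ∨ s x = -1) ∧
  ∀ s' : (Fin 2 → ℤ) → ℝ, (∀ x, s' x = 1 ∨ s' x = -1) → energy n w J s ≤ energy n w J s'

/-- a sequence of boundary terms `w n` and of ground states `σ n J` in the boxes `[0, n] ^ 2` for
the couplings `J` -/
structure IsFamily (μ : Measure ℝ) [IsProbabilityMeasure μ]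
    (w : ℕ → (Bond → ℝ) → ((Fin 2 → ℤ) → ℝ) → ℝ)
    (σ : ℕ → (Bond → ℝ) → (Fin 2 → ℤ) → ℝ) : Prop where
  /-- boundary terms -/
  boundary : ∀ n, IsBoundaryTerm n (w n)
  /-- measurability -/
  measurable : ∀ n, Measurable (σ n)
  /-- ground states -/
  ground : ∀ n, ∀ᵐ J ∂(law μ), IsBoxGroundState n (w n) J (σ n J)

/-- `σ` is an infinite-volume ground state for the couplings `J`: every change at finitely many
sites (at least one) increases the energy `-∑ J_e σ σ` (the sum of the differences over all bonds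
is a finite sum). -/
def IsGroundState (J : Bond → ℝ) (σ : (Fin 2 → ℤ) → ℝ) : Prop :=
  (∀ x, σ x = 1 ∨ σ x = -1) ∧
  ∀ ρ : (Fin 2 → ℤ) → ℝ, (∀ x, ρ x = 1 ∨ ρ x = -1) → {x | ρ x ≠ σ x}.Finite → ρ ≠ σ →
    0 < ∑ᶠ e : Bond, J e * (bondSpin σ e - bondSpin ρ e)

/-- the couplings seen from the site `a` -/
def seenFrom (a : Fin 2 → ℤ) (J : Bond → ℝ) : Bond → ℝ := fun e => J (e.1 + a, e.2)

/-- the positions in the box `[0, n) ^ 2` -/
noncomputable def sites (n : ℕ) : Finset (Fin 2 → ℤ) :=
  Fintype.piFinset fun _ : Fin 2 => Finset.Ico (0 : ℤ) n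

/-- the average over the positions `a` of the probability of a disagreement at the bond `(a, i)` -/
noncomputable def disagreement (μ : Measure ℝ) [IsProbabilityMeasure μ] (i : Fin 2) (n : ℕ)
    (s s' : (Bond → ℝ) → (Fin 2 → ℤ) → ℝ) : ℝ :=
  (∑ a ∈ sites n, (law μ).real {J | bondSpin (s J) (a, i) ≠ bondSpin (s' J) (a, i)}) / (n : ℝ) ^ 2

open Classical in
/-- the couplings `K` in the set `U` of bonds and the couplings `J` outside of `U` -/
noncomputable def resampled (U : Set Bond) (J K : Bond → ℝ) : Bond → ℝ :=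
  fun e => if e ∈ U then K e else J e

/-- the conditional expectation of `f` given the couplings outside of the set `U`: the couplings in
`U` are averaged -/
noncomputable def condOutside (μ : Measure ℝ) [IsProbabilityMeasure μ] (U : Set Bond)
    (f : (Bond → ℝ) → ℝ) (J : Bond → ℝ) : ℝ :=
  ∫ K, f (resampled U J K) ∂(law μ)

/-- the average over the positions `a` with `(a, i)` in `U` (all others count `0`) of
`E |E [bond of s - bond of s' | the couplings outside of U, and the coupling at the bond]|` -/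
noncomputable def visible (μ : Measure ℝ) [IsProbabilityMeasure μ] (i : Fin 2) (n : ℕ)
    (U : Set Bond) (s s' : (Bond → ℝ) → (Fin 2 → ℤ) → ℝ) : ℝ :=
  (∑ a ∈ sites n, Set.indicator U (fun e => ∫ J, |condOutside μ (U \ {e})
    (fun K => bondSpin (s K) e - bondSpin (s' K) e) J| ∂(law μ)) (a, i)) / (n : ℝ) ^ 2

/-- the uniform law on `[0, 1]` -/
noncomputable abbrev unif : Measure ℝ := volume.restrict (Set.Icc (0 : ℝ) 1)

instance : IsProbabilityMeasure unif := ⟨by simp [unif]⟩

/-- independent marks at the bonds, uniformly distributed in `[0, 1]` -/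
noncomputable abbrev marks : Measure (Bond → ℝ) := Measure.infinitePi fun _ : Bond => unif

/-- the bonds with a mark less than `δ`: every bond is in this set with probability `δ` -/
def marked (δ : ℝ) (ξ : Bond → ℝ) : Set Bond := {e | ξ e < δ}

/-- the average over the positions `a` of
`E |E [bond of s at (a, i) - m (couplings seen from a) | marks, the couplings which are not marked,
and the coupling at the bond]|` -/
noncomputable def deviation (μ : Measure ℝ) [IsProbabilityMeasure μ] (δ : ℝ) (i : Fin 2) (n : ℕ)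
    (s : (Bond → ℝ) → (Fin 2 → ℤ) → ℝ) (m : (Bond → ℝ) → ℝ) : ℝ :=
  (∑ a ∈ sites n, ∫ ξ, ∫ J, |condOutside μ (marked δ ξ \ {(a, i)})
    (fun K => bondSpin (s K) (a, i) - m (seenFrom a K)) J| ∂(law μ) ∂marks) / (n : ℝ) ^ 2

/-- the response to noise: the average over the positions `a` of the probability that the bond
`(a, i)` of `s`, for the couplings `J`, is not the bond `(a, i)` of `s'` for the couplings
`resampled (marked δ ξ) J K` (every coupling of `J` is resampled with probability `δ`) -/
noncomputable def response (μ : Measure ℝ) [IsProbabilityMeasure μ] (δ : ℝ) (i : Fin 2) (n : ℕ)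
    (s s' : (Bond → ℝ) → (Fin 2 → ℤ) → ℝ) : ℝ :=
  (∑ a ∈ sites n, (marks.prod ((law μ).prod (law μ))).real
    {p | bondSpin (s p.2.1) (a, i) ≠
      bondSpin (s' (resampled (marked δ p.1) p.2.1 p.2.2)) (a, i)}) / (n : ℝ) ^ 2

section bridge

open Pool.Agent.K3h93.EA Pool.Agent.Helper24.EA Pool.Agent.Helper24.NZ
open Pool.Agent.K3h93.EF hiding psi_eq psi_le psi_meas upper1 psi_le' step1 step2 step3 scale_est main_est main_abs

lemma inBox_iff (n : ℕ) (e : Bond) : InBox n e ↔ e ∈ FB n := FB_iff.symm

lemma energy_eq (n : ℕ) (w : (Bond → ℝ) → ((Fin 2 → ℤ) → ℝ) → ℝ) (J : Bond → ℝ)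
    (s : (Fin 2 → ℤ) → ℝ) : energy n w J s = -HE n (fun J s => -w J s) J s := by
  unfold energy HE
  have h1 : ∑ᶠ (e : Bond) (_ : InBox n e), J e * bondSpin s e = ∑ e ∈ FB n, J e * bp s e := by
    simp only [inBox_iff]
    exact finsum_mem_finset_eq_sum _ _
  rw [h1]
  ring

lemma sq_of {μ : Measure ℝ} [IsProbabilityMeasure μ]
    {w : ℕ → (Bond → ℝ) → ((Fin 2 → ℤ) → ℝ) → ℝ} {σ : ℕ → (Bond → ℝ) → (Fin 2 → ℤ) → ℝ}
    (h : IsFamily μ w σ) : Sq μ (fun n J s => -w n J s) σ := by
  refine ⟨fun n => ⟨fun J J' s hJ => ?_, fun J s s' hs => ?_, fun s => ?_⟩, h.measurable,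
    fun n => ?_⟩
  · rw [(h.boundary n).couplings J J' s fun e he => hJ e fun h' => he ((inBox_iff n e).2 h')]
  · rw [(h.boundary n).spins J s s' hs]
  · exact ((h.boundary n).measurable s).neg
  · filter_upwards [h.ground n] with J hJ
    refine ⟨hJ.1, fun s' hs' => ?_⟩
    have h1 := hJ.2 s' hs'
    rw [energy_eq, energy_eq] at h1
    exact neg_le_neg_iff.1 h1

lemma family_of {μ : Measure ℝ} [IsProbabilityMeasure μ]
    {w : ℕ → (Bond → ℝ) → ((Fin 2 → ℤ) → ℝ) → ℝ} {σ : ℕ → (Bond → ℝ) → (Fin 2 → ℤ) → ℝ}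
    (h : Sq μ w σ) : IsFamily μ (fun n J s => -w n J s) σ := by
  refine ⟨fun n => ⟨fun J J' s hJ => ?_, fun J s s' hs => ?_, fun s => ?_⟩, h.meas, fun n => ?_⟩
  · rw [(h.bt n).coup J J' s fun e he => hJ e fun h' => he ((inBox_iff n e).1 h')]
  · rw [(h.bt n).spins J s s' hs]
  · exact ((h.bt n).meas s).neg
  · filter_upwards [h.gs n] with J hJ
    refine ⟨hJ.1, fun s' hs' => ?_⟩
    have h1 := hJ.2 s' hs'
    rw [energy_eq, energy_eq]
    simp only [neg_neg]
    exact neg_le_neg h1

lemma st_zero (a : Fin 2 → ℤ) (i : Fin 2) : st a ((0, i) : E) = (a, i) := by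
  unfold st; simp

lemma disagreement_eq (μ : Measure ℝ) [IsProbabilityMeasure μ] (i : Fin 2) (n : ℕ)
    (s s' : (Bond → ℝ) → (Fin 2 → ℤ) → ℝ) : disagreement μ i n s s' = Ds μ (0, i) s s' n := by
  unfold disagreement Ds
  simp only [st_zero]
  rfl

lemma resampled_eq (U : Set Bond) (J K : Bond → ℝ) : resampled U J K = patch U J K := by
  funext e
  unfold resampled
  by_cases h : e ∈ U
  · rw [if_pos h, patch_mem h]
  · rw [if_neg h, patch_not h]

lemma condOutside_eq (μ : Measure ℝ) [IsProbabilityMeasure μ] (U : Set Bond) (f : (Bond → ℝ) → ℝ) :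
    condOutside μ U f = CE μ Uᶜ f := by
  funext J
  unfold condOutside CE
  simp only [resampled_eq, compl_compl]

lemma marked_eq (δ : ℝ) (ξ : Bond → ℝ) : marked δ ξ = (kn δ ξ)ᶜ := by
  ext e
  show ξ e < δ ↔ ¬ δ ≤ ξ e
  exact not_le.symm

lemma marked_compl (δ : ℝ) (ξ : Bond → ℝ) (e : Bond) :
    (marked δ ξ \ {e})ᶜ = insert e (kn δ ξ) := by
  rw [marked_eq, Set.sdiff_eq, Set.compl_inter, compl_compl, compl_compl, Set.union_comm]
  rfl

lemma diff_compl (U : Set Bond) (e : Bond) : (U \ {e})ᶜ = insert e Uᶜ := by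
  rw [Set.sdiff_eq, Set.compl_inter, compl_compl, Set.union_comm]
  rfl

lemma seen_eq (a : Fin 2 → ℤ) (J : Bond → ℝ) : seenFrom a J = sh a J := rfl

lemma spin_ae {μ : Measure ℝ} [IsProbabilityMeasure μ]
    {w : ℕ → (Bond → ℝ) → ((Fin 2 → ℤ) → ℝ) → ℝ} {σ : ℕ → (Bond → ℝ) → (Fin 2 → ℤ) → ℝ}
    (h : IsFamily μ w σ) (n : ℕ) : ∀ᵐ J ∂(Measure.infinitePi fun _ : E => μ), Spin (σ n J) :=
  (h.ground n).mono fun _ hJ => hJ.1

lemma unif_Iio {δ : ℝ} (h0 : 0 < δ) (h1 : δ ≤ 1) : unif.real (Set.Iio δ) = δ := by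
  have h2 : Set.Iio δ ∩ Set.Icc (0 : ℝ) 1 = Set.Ico 0 δ := by
    ext x
    simp only [Set.mem_inter_iff, Set.mem_Iio, Set.mem_Icc, Set.mem_Ico]
    constructor
    · rintro ⟨h3, h4, _⟩
      exact ⟨h4, h3⟩
    · rintro ⟨h3, h4⟩
      exact ⟨h4, h3, by linarith⟩
  rw [measureReal_restrict_apply measurableSet_Iio, h2, Real.volume_real_Ico_of_le h0.le, sub_zero]

lemma unif_zero : Tendsto (fun δ : ℝ => unif.real (Set.Iio δ)) (𝓝[>] 0) (𝓝 0) := by
  have h1 : Tendsto (fun δ : ℝ => δ) (𝓝[>] 0) (𝓝 0) := tendsto_nhdsWithin_of_tendsto_nhds tendsto_id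
  refine h1.congr' ?_
  filter_upwards [Ioc_mem_nhdsGT (show (0 : ℝ) < 1 by norm_num)] with δ hδ
  exact (unif_Iio hδ.1 hδ.2).symm

lemma visible_eq {μ : Measure ℝ} [IsProbabilityMeasure μ] (i : Fin 2) (n : ℕ) (U : Set Bond)
    {s s' : (Bond → ℝ) → (Fin 2 → ℤ) → ℝ}
    (h : ∀ᵐ J ∂(Measure.infinitePi fun _ : E => μ), Spin (s J))
    (h' : ∀ᵐ J ∂(Measure.infinitePi fun _ : E => μ), Spin (s' J)) :
    visible μ i n U s s' = (∑ a ∈ pos n, Set.indicator U (fun e =>
      nI μ (insert e Uᶜ) (fun J => cb s e J - cb s' e J)) (st a (0, i))) / (n : ℝ) ^ 2 := by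
  unfold visible
  have h1 : ∀ e : Bond, ∫ J, |condOutside μ (U \ {e}) (fun K => bondSpin (s K) e - bondSpin (s' K) e) J|
      ∂(law μ) = nI μ (insert e Uᶜ) (fun J => cb s e J - cb s' e J) := by
    intro e
    rw [condOutside_eq, diff_compl]
    refine nI_congr ?_ _
    filter_upwards [h, h'] with J h1 h2
    rw [cb_of h1, cb_of h2]
    rfl
  simp only [h1, st_zero]
  rfl

lemma deviation_eq {μ : Measure ℝ} [IsProbabilityMeasure μ] (δ : ℝ) (i : Fin 2) (n : ℕ)
    {s : (Bond → ℝ) → (Fin 2 → ℤ) → ℝ}
    (h : ∀ᵐ J ∂(Measure.infinitePi fun _ : E => μ), Spin (s J)) (m : (Bond → ℝ) → ℝ) :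
    deviation μ δ i n s m = (∑ a ∈ pos n, Dl μ unif δ (st a (0, i))
      (fun J => cb s (st a (0, i)) J - m (sh a J))) / (n : ℝ) ^ 2 := by
  unfold deviation
  congr 1
  refine Finset.sum_congr rfl fun a _ => ?_
  rw [st_zero, Dl_congr (g := fun K => bondSpin (s K) (a, i) - m (seenFrom a K)) (by
    filter_upwards [h] with J h1
    rw [cb_of h1]
    rfl)]
  unfold Dl
  refine integral_congr_ae (Eventually.of_forall fun ξ => ?_)
  simp only [hh_eq, nI, condOutside_eq, marked_compl]

lemma response_eq {μ : Measure ℝ} [IsProbabilityMeasure μ] (δ : ℝ) (i : Fin 2) {n : ℕ}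
    (hn : 1 ≤ n) {s s' : (Bond → ℝ) → (Fin 2 → ℤ) → ℝ} (hs : Measurable s) (hs' : Measurable s')
    (h : ∀ᵐ J ∂(Measure.infinitePi fun _ : E => μ), Spin (s J))
    (h' : ∀ᵐ J ∂(Measure.infinitePi fun _ : E => μ), Spin (s' J)) :
    response μ δ i n s s' = (1 - (∑ a ∈ pos n, Cr μ unif δ (cb s (st a (0, i)))
      (cb s' (st a (0, i)))) / (n : ℝ) ^ 2) / 2 := by
  rw [← avg_half hn]
  unfold response
  congr 1
  refine Finset.sum_congr rfl fun a _ => ?_
  have h1 := resp_eq (μ := μ) (ν := unif) hs hs' h h' δ (st a (0, i))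
  rw [← h1, st_zero]
  simp only [resampled_eq, marked_eq]
  rfl

lemma gs_iff {J : Bond → ℝ} {σ : (Fin 2 → ℤ) → ℝ} :
    IsGroundState J σ ↔ Pool.Agent.R239.EA.GA J σ := by
  rw [Pool.Agent.R239.EA.GA_iff]
  rfl

end bridge

open Pool.Agent.K3h93.EA Pool.Agent.Helper24.EA Pool.Agent.Helper24.NZ in
/-- **Theorem.** Let the couplings on the bonds of `ℤ²` be iid with a law `μ` without atoms and with
a finite first moment. There are measurable functions `m i` of the couplings, for the two directions
`i = 0, 1` of the bonds, with values in `[-1, 1]`, a nondecreasing function `ψ i` and a number `χ i`,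

`ψ i δ = (1 - E (E [m i | marks, the couplings which are not marked]) ^ 2) / 2`,
`χ i = (1 - E (m i) ^ 2) / 2`, `0 ≤ χ i ≤ ψ i δ ≤ 1 / 2`, `χ i ≤ 2 * χ j`, `ψ i → χ i` at `0`,

such that the following holds for all families, that is, for all sequences of boundary terms which
do not depend on the couplings in the box, and for all `δ` in `(0, 1]`.

(1) For arbitrary sets `U n` of bonds: if the couplings in `U n` are hidden then the conditional
expectations of the bonds in `U n`, given all other couplings and the coupling at the bond, are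
asymptotically the same for any two families.

(2) If every coupling is hidden with probability `δ` then the conditional expectation of a bond is
asymptotically that of `m i`.

(3) If every coupling is resampled with probability `δ` then a bond changes with probability
`ψ i δ`, asymptotically and on average, and `ψ i δ` is also the limit of the probability that the
bond of one family before the resampling is not the bond of another family after the resampling.

(4) Two families disagree on average with probability at most `2 * χ i + o(1)`. For every family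
there is another one, with boundary terms which do not depend on any coupling, such that they
disagree on average with probability at least `χ i / 2 - o(1)`. In particular `χ i = 0` if and only
if all families agree asymptotically.

(5) If `χ i > 0` then there are almost surely two incongruent ground states in infinite volume. -/
theorem result (μ : Measure ℝ) [IsProbabilityMeasure μ] (hatom : ∀ x, μ {x} = 0)
    (hmean : Integrable (fun x : ℝ => x) μ) :
    ∃ (m : Fin 2 → (Bond → ℝ) → ℝ) (ψ : Fin 2 → ℝ → ℝ) (χ : Fin 2 → ℝ),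
      (∀ i, Measurable (m i) ∧ (∀ J, |m i J| ≤ 1) ∧
        (∀ δ, ψ i δ = (1 - ∫ ξ, ∫ J, condOutside μ (marked δ ξ) (m i) J ^ 2 ∂(law μ) ∂marks) / 2) ∧
        χ i = (1 - ∫ J, m i J ^ 2 ∂(law μ)) / 2) ∧
      (∀ i, 0 ≤ χ i ∧ Monotone (ψ i) ∧ (∀ δ, χ i ≤ ψ i δ ∧ ψ i δ ≤ 1 / 2) ∧
        (∀ j, χ i ≤ 2 * χ j) ∧ Tendsto (ψ i) (𝓝[>] 0) (𝓝 (χ i))) ∧
      -- (1)
      (∀ w σ w' σ', IsFamily μ w σ → IsFamily μ w' σ' → ∀ (i : Fin 2) (U : ℕ → Set Bond),
        Tendsto (fun n => visible μ i n (U n) (σ n) (σ' n)) atTop (𝓝 0)) ∧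
      -- (2)
      (∀ w σ, IsFamily μ w σ → ∀ i δ, 0 < δ → δ ≤ 1 →
        Tendsto (fun n => deviation μ δ i n (σ n) (m i)) atTop (𝓝 0)) ∧
      -- (3)
      (∀ w σ w' σ', IsFamily μ w σ → IsFamily μ w' σ' → ∀ i δ, 0 < δ → δ ≤ 1 →
        Tendsto (fun n => response μ δ i n (σ n) (σ' n)) atTop (𝓝 (ψ i δ))) ∧
      -- (4)
      (∀ w σ w' σ', IsFamily μ w σ → IsFamily μ w' σ' → ∀ i, ∀ ε > 0, ∀ᶠ n in atTop,
        disagreement μ i n (σ n) (σ' n) < 2 * χ i + ε) ∧
      (∀ w σ, IsFamily μ w σ → ∀ i, ∃ w' σ', IsFamily μ w' σ' ∧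
        (∀ n J J' s, w' n J s = w' n J' s) ∧
        ∀ ε > 0, ∀ᶠ n in atTop, χ i / 2 - ε < disagreement μ i n (σ n) (σ' n)) ∧
      (∀ i, χ i = 0 ↔ ∀ w σ w' σ', IsFamily μ w σ → IsFamily μ w' σ' →
        Tendsto (fun n => disagreement μ i n (σ n) (σ' n)) atTop (𝓝 0)) ∧
      -- (5)
      (∀ i, 0 < χ i →
        ∀ᵐ J ∂(law μ), ∃ σ τ, IsGroundState J σ ∧ IsGroundState J τ ∧ τ ≠ σ ∧ τ ≠ -σ) := by
  choose m hm using fun i : Fin 2 => exists_Um hmean hatom ((0, i) : E)
  have hk : ∀ i j, ki μ (m i) = ki μ (m j) := fun i j => ki_eq hm i j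
  have h1 : ∀ i, ki μ (m i) ≤ chi μ (m i) := fun i => ki_le_chi (hm i).meas (hm i).le
  have h2 : ∀ i, chi μ (m i) ≤ 2 * ki μ (m i) := fun i => chi_le_ki (hm i).meas (hm i).le
  have h3 : ∀ i, 0 ≤ ki μ (m i) := fun i => (hm i).ki_nonneg
  have hup : ∀ w σ w' σ', IsFamily μ w σ → IsFamily μ w' σ' → ∀ i, ∀ ε > 0, ∀ᶠ n in atTop,
      disagreement μ i n (σ n) (σ' n) < 2 * chi μ (m i) + ε := by
    intro w σ w' σ' h h' i ε hε
    simp only [disagreement_eq]
    refine ((hm i).ds_le (sq_of h) (sq_of h') hε).mono fun n hn => ?_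
    have := h1 i
    linarith
  have hlo : ∀ w σ, IsFamily μ w σ → ∀ i, ∃ w' σ', IsFamily μ w' σ' ∧
      (∀ n J J' s, w' n J s = w' n J' s) ∧
      ∀ ε > 0, ∀ᶠ n in atTop, chi μ (m i) / 2 - ε < disagreement μ i n (σ n) (σ' n) := by
    intro w σ h i
    obtain ⟨w', σ', h4, h5, h6⟩ := (hm i).partner_sq (sq_of h)
    refine ⟨_, σ', family_of h4, fun n J J' s => by rw [h5 n J J' s], fun ε hε => ?_⟩
    simp only [disagreement_eq]
    refine (h6 ε hε).mono fun n hn => ?_
    have := h2 i
    linarith
  have hdn : ∀ i n (s s' : (Bond → ℝ) → (Fin 2 → ℤ) → ℝ), 0 ≤ disagreement μ i n s s' :=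
    fun i n s s' => div_nonneg (Finset.sum_nonneg fun _ _ => measureReal_nonneg) (sq_nonneg _)
  refine ⟨m, fun i => rf μ unif (m i), fun i => chi μ (m i), fun i => ⟨(hm i).meas, (hm i).le,
    fun δ => ?_, rfl⟩, fun i => ⟨(h3 i).trans (h1 i), rf_mono (hm i).meas (hm i).le,
    fun δ => ⟨chi_le_rf (hm i).meas (hm i).le δ, rf_le (hm i).meas (hm i).le δ⟩, fun j => ?_,
    rf_zero (hm i).meas (hm i).le unif_zero⟩, ?_, ?_, ?_, hup, hlo, ?_, ?_⟩
  · show (1 - Cr μ unif δ (m i) (m i)) / 2 = _
    rw [Cr_self (hm i).meas (hm i).le]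
    simp only [condOutside_eq, marked_eq, compl_compl]
    rfl
  · have := h1 j
    have := h2 i
    rw [hk i j] at this
    linarith
  · intro w σ w' σ' h h' i U
    refine (lim_det hmean hatom i (sq_of h) (sq_of h') U).congr fun n => ?_
    exact (visible_eq i n (U n) (spin_ae h n) (spin_ae h' n)).symm
  · intro w σ h i δ hδ hδ1
    have h4 : 0 < unif.real (Set.Iio δ) := by rw [unif_Iio hδ hδ1]; exact hδ
    refine (lim_rnd (ν := unif) hmean hatom h4 (hm i) (sq_of h)).congr fun n => ?_
    exact (deviation_eq δ i n (spin_ae h n) (m i)).symm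
  · intro w σ w' σ' h h' i δ hδ hδ1
    have h4 : 0 < unif.real (Set.Iio δ) := by rw [unif_Iio hδ hδ1]; exact hδ
    have h5 := ((Cr_tendsto (ν := unif) hmean hatom h4 (hm i) (sq_of h)
      (sq_of h')).const_sub 1).div_const 2
    refine h5.congr' ?_
    filter_upwards [eventually_ge_atTop 1] with n hn
    exact (response_eq δ i hn (h.measurable n) (h'.measurable n) (spin_ae h n)
      (spin_ae h' n)).symm
  · intro i
    constructor
    · intro h0 w σ w' σ' h h'
      have h0' : chi μ (m i) = 0 := h0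
      rw [Metric.tendsto_nhds]
      intro ε hε
      filter_upwards [hup w σ w' σ' h h' i ε hε] with n hn
      rw [Real.dist_eq, sub_zero, abs_of_nonneg (hdn _ _ _ _)]
      rw [h0'] at hn
      linarith
    · intro hall
      have hfam : IsFamily μ (fun n J s => -(fun _ _ _ => (0 : ℝ)) n J s) fr :=
        family_of (fr_sq (μ := μ))
      obtain ⟨w', σ', h4, _, h6⟩ := hlo _ _ hfam i
      have h7 := hall _ _ _ _ hfam h4
      by_contra hne
      have hpos : 0 < chi μ (m i) := lt_of_le_of_ne ((h3 i).trans (h1 i)) (Ne.symm hne)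
      have h8 := h7.eventually (gt_mem_nhds (show (0 : ℝ) < chi μ (m i) / 4 by linarith))
      obtain ⟨n, h9, h10⟩ := (h8.and (h6 (chi μ (m i) / 4) (by linarith))).exists
      linarith
  · intro i hpos
    have hpos' : ki μ (m i) ≠ 0 := fun h0 => by
      have := h2 i
      rw [h0] at this
      linarith
    filter_upwards [(hm i).incongruent hatom hpos'] with J hJ
    obtain ⟨σ, τ, h4, h5, h6⟩ := hJ
    rw [not_or] at h6
    exact ⟨σ, τ, gs_iff.2 h4, gs_iff.2 h5, h6.1, h6.2⟩

end Pool.Agent.Results.MP_37ff18_mp.NoiseUniversality
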