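import Pool.Agent.Helper24.EA.H

set_option autoImplicit false

/-!
# Edwards-Anderson ground states in the plane: a universal prediction error and a dichotomy

The couplings on the bonds of `ℤ²` are iid with any law without atoms and with a finite first
moment. For every `n` let `σ_n` be a ground state in the box `[0, n] ^ 2` with an arbitrary boundary
term which does not depend on the couplings in the box: free, periodic, antiperiodic or fixed
boundary conditions, or any other function of the spins at the boundary and of the couplings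
outside of the box. One tries to predict the product of the spins at a bond from the couplings in a
finite window around the bond.

**Theorem.** There is a number `κ ≥ 0` (which depends only on the law of the couplings) such that:
the smallest possible average error of a prediction from a window `F` is asymptotically the same
number `κF i F` for all boundary conditions, the same rule `f i F` is optimal for all of them, and
`κF i F` decreases to `κ` when the window grows. When the couplings outside of the window are
resampled then the bond changes with a probability between `κF i F` and `2 κF i F`, asymptotically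
and on average, for all boundary conditions. Two boundary conditions disagree asymptotically on a
fraction of at most `2 κ` of the bonds, and for every boundary condition there is another one, which
does not depend on any coupling, such that they disagree on a fraction of at least `κ` of the bonds.
If `κ > 0` then there are almost surely incongruent infinite-volume ground states. And `κ = 0` if
and only if there is a measurable translation covariant pair `S` of infinite-volume ground states
such that the ground states for all boundary conditions converge to `S` on average.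

The proof starts from the universality of the conditional bond expectations. For the second part of
(3) the ground state of a very large box is restricted to the boxes of side `n`: the restriction is
a ground state for the boundary term which is given by the optimal energy of the outside.
-/

open MeasureTheory Filter Topology

namespace Pool.Agent.Results.MP_37ff18_mp.UniversalUnpredictability

/-- The bond `(v, i)` joins the sites `v` and `v + e_i` of `ℤ²`. -/
abbrev Bond : Type := (Fin 2 → ℤ) × Fin 2

/-- iid couplings with law `μ` -/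
noncomputable abbrev law (μ : Measure ℝ) [IsProbabilityMeasure μ] : Measure (Bond → ℝ) :=
  Measure.infinitePi fun _ : Bond => μ

/-- the product of the spins at the two ends of the bond `e` -/
def bondSpin (s : (Fin 2 → ℤ) → ℝ) (e : Bond) : ℝ :=
  s e.1 * s (e.1 + (Pi.single e.2 (1 : ℤ) : Fin 2 → ℤ))

/-- the box `[0, n] ^ 2` -/
def box (n : ℕ) : Set (Fin 2 → ℤ) := {x | ∀ i, 0 ≤ x i ∧ x i ≤ n}

/-- both ends of the bond are in the box `[0, n] ^ 2` -/
def InBox (n : ℕ) (e : Bond) : Prop :=
  e.1 ∈ box n ∧ e.1 + (Pi.single e.2 (1 : ℤ) : Fin 2 → ℤ) ∈ box n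

/-- A boundary term for the box `[0, n] ^ 2`: an arbitrary (measurable) function of the couplings
outside of the box and of the spins at the boundary of the box. -/
structure IsBoundaryTerm (n : ℕ) (w : (Bond → ℝ) → ((Fin 2 → ℤ) → ℝ) → ℝ) : Prop where
  /-- it does not depend on the couplings in the box -/
  couplings : ∀ J J' s, (∀ e, ¬ InBox n e → J e = J' e) → w J s = w J' s
  /-- it depends on the spins at the boundary of the box only -/
  spins : ∀ J s s', (∀ x ∈ box n, (∃ i, x i = 0 ∨ x i = n) → s x = s' x) → w J s = w J s'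
  /-- measurability -/
  measurable : ∀ s, Measurable fun J => w J s

/-- the energy of the spins `s` in the box `[0, n] ^ 2` with the boundary term `w` -/
noncomputable def energy (n : ℕ) (w : (Bond → ℝ) → ((Fin 2 → ℤ) → ℝ) → ℝ) (J : Bond → ℝ)
    (s : (Fin 2 → ℤ) → ℝ) : ℝ :=
  w J s - ∑ᶠ (e : Bond) (_ : InBox n e), J e * bondSpin s e

/-- `s` is a ground state in the box -/
def IsBoxGroundState (n : ℕ) (w : (Bond → ℝ) → ((Fin 2 → ℤ) → ℝ) → ℝ) (J : Bond → ℝ)
    (s : (Fin 2 → ℤ) → ℝ) : Prop :=
  (∀ x, s x = 1 ∨ s x = -1) ∧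
  ∀ s' : (Fin 2 → ℤ) → ℝ, (∀ x, s' x = 1 ∨ s' x = -1) → energy n w J s ≤ energy n w J s'

/-- a sequence of boundary terms `w n` and of ground states `σ n J` in the boxes `[0, n] ^ 2` for
the couplings `J` -/
structure IsFamily (μ : Measure ℝ) [IsProbabilityMeasure μ]
    (w : ℕ → (Bond → ℝ) → ((Fin 2 → ℤ) → ℝ) → ℝ)
    (σ : ℕ → (Bond → ℝ) → (Fin 2 → ℤ) → ℝ) : Prop where
  /-- boundary terms -/
  boundary : ∀ n, IsBoundaryTerm n (w n)
  /-- measurability -/
  measurable : ∀ n, Measurable (σ n)
  /-- ground states -/
  ground : ∀ n, ∀ᵐ J ∂(law μ), IsBoxGroundState n (w n) J (σ n J)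

/-- `σ` is an infinite-volume ground state for the couplings `J`: every change at finitely many
sites (at least one) increases the energy `-∑ J_e σ σ` (the sum of the differences over all bonds
is a finite sum). -/
def IsGroundState (J : Bond → ℝ) (σ : (Fin 2 → ℤ) → ℝ) : Prop :=
  (∀ x, σ x = 1 ∨ σ x = -1) ∧
  ∀ ρ : (Fin 2 → ℤ) → ℝ, (∀ x, ρ x = 1 ∨ ρ x = -1) → {x | ρ x ≠ σ x}.Finite → ρ ≠ σ →
    0 < ∑ᶠ e : Bond, J e * (bondSpin σ e - bondSpin ρ e)

/-- the couplings seen from the site `a` -/
def seenFrom (a : Fin 2 → ℤ) (J : Bond → ℝ) : Bond → ℝ := fun e => J (e.1 + a, e.2)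

/-- A rule with window `F`: it predicts `1` or `-1` from the couplings in `F`. -/
structure IsRule (F : Finset Bond) (f : (Bond → ℝ) → ℝ) : Prop where
  /-- measurability -/
  measurable : Measurable f
  /-- the prediction is `1` or `-1` -/
  sign : ∀ J, f J = 1 ∨ f J = -1
  /-- it depends on the couplings in the window only -/
  window : ∀ J J', (∀ e ∈ F, J e = J' e) → f J = f J'

/-- the positions in the box `[0, n) ^ 2` -/
noncomputable def sites (n : ℕ) : Finset (Fin 2 → ℤ) :=
  Fintype.piFinset fun _ : Fin 2 => Finset.Ico (0 : ℤ) n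

/-- the average over the positions `a` of the probability that the prediction of `f a`, from the
couplings seen from `a`, is not the product of the spins at the bond `(a, i)` -/
noncomputable def failure (μ : Measure ℝ) [IsProbabilityMeasure μ] (i : Fin 2) (n : ℕ)
    (f : (Fin 2 → ℤ) → (Bond → ℝ) → ℝ) (s : (Bond → ℝ) → (Fin 2 → ℤ) → ℝ) : ℝ :=
  (∑ a ∈ sites n, (law μ).real {J | f a (seenFrom a J) ≠ bondSpin (s J) (a, i)}) / (n : ℝ) ^ 2

/-- the average over the positions `a` of the probability of a disagreement at the bond `(a, i)` -/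
noncomputable def disagreement (μ : Measure ℝ) [IsProbabilityMeasure μ] (i : Fin 2) (n : ℕ)
    (s s' : (Bond → ℝ) → (Fin 2 → ℤ) → ℝ) : ℝ :=
  (∑ a ∈ sites n, (law μ).real {J | bondSpin (s J) (a, i) ≠ bondSpin (s' J) (a, i)}) / (n : ℝ) ^ 2

open Classical in
/-- the couplings `J` in the window `F` around `a`, and `K` outside of this window -/
noncomputable def resample (F : Finset Bond) (a : Fin 2 → ℤ) (J K : Bond → ℝ) : Bond → ℝ :=
  fun e => if (e.1 - a, e.2) ∈ F then J e else K e

/-- the average over the positions `a` of the probability that the bond `(a, i)` changes when all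
the couplings outside of the window `F` around `a` are resampled -/
noncomputable def sensitivity (μ : Measure ℝ) [IsProbabilityMeasure μ] (i : Fin 2) (n : ℕ)
    (F : Finset Bond) (s : (Bond → ℝ) → (Fin 2 → ℤ) → ℝ) : ℝ :=
  (∑ a ∈ sites n, ((law μ).prod (law μ)).real
    {p | bondSpin (s p.1) (a, i) ≠ bondSpin (s (resample F a p.1 p.2)) (a, i)}) / (n : ℝ) ^ 2

section bridge

open Pool.Agent.K3h93.EA Pool.Agent.K3h93.EF Pool.Agent.Helper24.EA

lemma inBox_iff (n : ℕ) (e : Bond) : InBox n e ↔ e ∈ FB n := FB_iff.symm

lemma energy_eq (n : ℕ) (w : (Bond → ℝ) → ((Fin 2 → ℤ) → ℝ) → ℝ) (J : Bond → ℝ)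
    (s : (Fin 2 → ℤ) → ℝ) : energy n w J s = -HE n (fun J s => -w J s) J s := by
  unfold energy HE
  have h1 : ∑ᶠ (e : Bond) (_ : InBox n e), J e * bondSpin s e = ∑ e ∈ FB n, J e * bp s e := by
    simp only [inBox_iff]
    exact finsum_mem_finset_eq_sum _ _
  rw [h1]
  ring

lemma sq_of {μ : Measure ℝ} [IsProbabilityMeasure μ]
    {w : ℕ → (Bond → ℝ) → ((Fin 2 → ℤ) → ℝ) → ℝ} {σ : ℕ → (Bond → ℝ) → (Fin 2 → ℤ) → ℝ}
    (h : IsFamily μ w σ) : Sq μ (fun n J s => -w n J s) σ := by
  refine ⟨fun n => ⟨fun J J' s hJ => ?_, fun J s s' hs => ?_, fun s => ?_⟩, h.measurable,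
    fun n => ?_⟩
  · rw [(h.boundary n).couplings J J' s fun e he => hJ e fun h' => he ((inBox_iff n e).2 h')]
  · rw [(h.boundary n).spins J s s' hs]
  · exact ((h.boundary n).measurable s).neg
  · filter_upwards [h.ground n] with J hJ
    refine ⟨hJ.1, fun s' hs' => ?_⟩
    have h1 := hJ.2 s' hs'
    rw [energy_eq, energy_eq] at h1
    exact neg_le_neg_iff.1 h1

lemma family_of {μ : Measure ℝ} [IsProbabilityMeasure μ]
    {w : ℕ → (Bond → ℝ) → ((Fin 2 → ℤ) → ℝ) → ℝ} {σ : ℕ → (Bond → ℝ) → (Fin 2 → ℤ) → ℝ}
    (h : Sq μ w σ) : IsFamily μ (fun n J s => -w n J s) σ := by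
  refine ⟨fun n => ⟨fun J J' s hJ => ?_, fun J s s' hs => ?_, fun s => ?_⟩, h.meas, fun n => ?_⟩
  · rw [(h.bt n).coup J J' s fun e he => hJ e fun h' => he ((inBox_iff n e).1 h')]
  · rw [(h.bt n).spins J s s' hs]
  · exact ((h.bt n).meas s).neg
  · filter_upwards [h.gs n] with J hJ
    refine ⟨hJ.1, fun s' hs' => ?_⟩
    have h1 := hJ.2 s' hs'
    rw [energy_eq, energy_eq]
    simp only [neg_neg]
    exact neg_le_neg h1

lemma rule_iff {F : Finset Bond} {f : (Bond → ℝ) → ℝ} : IsRule F f ↔ Rl F f :=
  ⟨fun h => ⟨h.measurable, h.sign, fun J J' hJ => h.window J J' fun e he =>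
    hJ e (Finset.mem_coe.2 he)⟩, fun h => ⟨h.meas, h.pm, fun J J' hJ => h.dep J J' fun e he =>
    hJ e (Finset.mem_coe.1 he)⟩⟩

lemma st_zero (a : Fin 2 → ℤ) (i : Fin 2) : st a ((0, i) : E) = (a, i) := by
  unfold st; simp

lemma failure_eq (μ : Measure ℝ) [IsProbabilityMeasure μ] (i : Fin 2) (n : ℕ)
    (f : (Fin 2 → ℤ) → (Bond → ℝ) → ℝ) (s : (Bond → ℝ) → (Fin 2 → ℤ) → ℝ) :
    failure μ i n f s = Fl μ (0, i) f s n := by
  unfold failure Fl
  simp only [st_zero]
  rfl

lemma disagreement_eq (μ : Measure ℝ) [IsProbabilityMeasure μ] (i : Fin 2) (n : ℕ)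
    (s s' : (Bond → ℝ) → (Fin 2 → ℤ) → ℝ) : disagreement μ i n s s' = Ds μ (0, i) s s' n := by
  unfold disagreement Ds
  simp only [st_zero]
  rfl

lemma sensitivity_eq (μ : Measure ℝ) [IsProbabilityMeasure μ] (i : Fin 2) (n : ℕ)
    (F : Finset Bond) (s : (Bond → ℝ) → (Fin 2 → ℤ) → ℝ) :
    sensitivity μ i n F s = Sn μ (0, i) F s n := by
  unfold sensitivity Sn
  simp only [st_zero]
  rfl

lemma gs_iff {J : Bond → ℝ} {σ : (Fin 2 → ℤ) → ℝ} :
    IsGroundState J σ ↔ Pool.Agent.R239.EA.GA J σ := by
  rw [Pool.Agent.R239.EA.GA_iff]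
  rfl

end bridge

open Pool.Agent.K3h93.EA Pool.Agent.K3h93.EF Pool.Agent.Helper24.EA in
/-- **Theorem.** Let the couplings on the bonds of `ℤ²` be iid with a law `μ` without atoms and with
a finite first moment. There are a number `κ ≥ 0`, numbers `κF i F` and rules `f i F` with window
`F`, for all finite sets `F` of bonds and `i = 0, 1`, such that `κF i F ≤ 1 / 2` decreases to `κ`
when `F` grows and such that the following holds for all families, that is, for all sequences of
boundary terms which do not depend on the couplings in the box.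

(1) The average error of the rule `f i F` tends to `κF i F`, and up to a term which tends to `0` no
choice of rules with window `F` (a different rule for every position is allowed) is better.

(2) When the couplings outside of the window `F` are resampled then the average probability that a
bond changes is asymptotically between `κF i F` and `2 κF i F`.

(3) Two families disagree on average with probability at most `2 κ + o(1)`. For every family there
is another one, with boundary terms which do not depend on any coupling, such that they disagree on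
average with probability at least `κ - o(1)`.

(4) If `κ > 0` then there are almost surely two incongruent ground states in infinite volume.

(5) `κ = 0` if and only if there is a measurable map `S` from the couplings to the ground states in
infinite volume, covariant under translations up to a global flip, such that for all families the
average probability of a disagreement with `S` tends to `0`. -/
theorem result (μ : Measure ℝ) [IsProbabilityMeasure μ] (hatom : ∀ x, μ {x} = 0)
    (hmean : Integrable (fun x : ℝ => x) μ) :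
    ∃ (κ : ℝ) (κF : Fin 2 → Finset Bond → ℝ) (f : Fin 2 → Finset Bond → (Bond → ℝ) → ℝ),
      (0 ≤ κ ∧ ∀ i, Antitone (κF i) ∧ (∀ F, κF i F ≤ 1 / 2) ∧ (∀ F, IsRule F (f i F)) ∧
        Tendsto (κF i) atTop (𝓝 κ)) ∧
      -- (1)
      (∀ w σ, IsFamily μ w σ → ∀ i F,
        Tendsto (fun n => failure μ i n (fun _ => f i F) (σ n)) atTop (𝓝 (κF i F)) ∧
        ∀ ε > 0, ∀ᶠ n in atTop, ∀ g : (Fin 2 → ℤ) → (Bond → ℝ) → ℝ, (∀ a, IsRule F (g a)) →
          κF i F - ε < failure μ i n g (σ n)) ∧
      -- (2)
      (∀ w σ, IsFamily μ w σ → ∀ i F, ∀ ε > 0, ∀ᶠ n in atTop,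
        κF i F - ε < sensitivity μ i n F (σ n) ∧
          sensitivity μ i n F (σ n) < 2 * κF i F + ε) ∧
      -- (3)
      (∀ w σ w' σ', IsFamily μ w σ → IsFamily μ w' σ' → ∀ i, ∀ ε > 0, ∀ᶠ n in atTop,
        disagreement μ i n (σ n) (σ' n) < 2 * κ + ε) ∧
      (∀ w σ, IsFamily μ w σ → ∀ i, ∃ w' σ', IsFamily μ w' σ' ∧
        (∀ n J J' s, w' n J s = w' n J' s) ∧
        ∀ ε > 0, ∀ᶠ n in atTop, κ - ε < disagreement μ i n (σ n) (σ' n)) ∧
      -- (4)
      (0 < κ → ∀ᵐ J ∂(law μ), ∃ σ τ, IsGroundState J σ ∧ IsGroundState J τ ∧ τ ≠ σ ∧ τ ≠ -σ) ∧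
      -- (5)
      (κ = 0 ↔ ∃ S : (Bond → ℝ) → (Fin 2 → ℤ) → ℝ, Measurable S ∧
        (∀ᵐ J ∂(law μ), IsGroundState J (S J)) ∧
        (∀ᵐ J ∂(law μ), ∀ (a : Fin 2 → ℤ) (e : Bond),
          bondSpin (S (seenFrom a J)) e = bondSpin (S J) (e.1 + a, e.2)) ∧
        ∀ w σ, IsFamily μ w σ → ∀ i,
          Tendsto (fun n => disagreement μ i n (σ n) S) atTop (𝓝 0)) := by
  choose m hm using fun i : Fin 2 => exists_Um hmean hatom ((0, i) : E)
  have hk : ∀ i, ki μ (m i) = ki μ (m 0) := fun i => ki_eq hm i 0
  refine ⟨ki μ (m 0), fun i F => ka μ (m i) F, fun i F => br μ (m i) F, ⟨(hm 0).ki_nonneg,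
    fun i => ⟨fun F F' h => (hm i).mono h, fun F => ka_le _ _,
      fun F => rule_iff.2 ((hm i).br_rl F), ?_⟩⟩, ?_, ?_, ?_, ?_, ?_, ?_⟩
  · rw [← hk i]
    exact (hm i).ka_tendsto
  · intro w σ h i F
    simp only [failure_eq]
    refine ⟨(hm i).br_tendsto (sq_of h) F, fun ε hε => ?_⟩
    obtain ⟨N, hN⟩ := (hm i).rule_unif (sq_of h) F hε
    filter_upwards [eventually_ge_atTop N] with n hn g hg
    exact hN n hn g fun a => rule_iff.1 (hg a)
  · intro w σ h i F ε hε
    simp only [sensitivity_eq]
    exact ((hm i).lt_sn (sq_of h) F hε).and ((hm i).sn_lt (sq_of h) F hε)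
  · intro w σ w' σ' h h' i ε hε
    simp only [disagreement_eq]
    rw [← hk i]
    exact (hm i).ds_le (sq_of h) (sq_of h') hε
  · intro w σ h i
    obtain ⟨w', σ', h1, h2, h3⟩ := (hm i).partner_sq (sq_of h)
    refine ⟨_, σ', family_of h1, fun n J J' s => by rw [h2 n J J' s], fun ε hε => ?_⟩
    simp only [disagreement_eq]
    rw [← hk i]
    exact h3 ε hε
  · intro hpos
    filter_upwards [(hm 0).incongruent hatom hpos.ne'] with J hJ
    obtain ⟨σ, τ, h1, h2, h3⟩ := hJ
    rw [not_or] at h3
    exact ⟨σ, τ, gs_iff.2 h1, gs_iff.2 h2, h3.1, h3.2⟩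
  · constructor
    · intro h0
      have hk0 : ∀ i, ki μ (m i) = 0 := fun i => (hk i).trans h0
      have hgd : ∀ᵐ J ∂(law μ), ∀ r, Gd m r J := ae_all_iff.2 fun r => Gd_ae hm hk0 hatom r
      have hmm : ∀ i, Measurable (m i) := fun i => (hm i).meas
      refine ⟨SS m, SS_meas hmm, ?_, ?_, ?_⟩
      · filter_upwards [hgd] with J hJ
        exact gs_iff.2 (SS_spec hJ).1
      · have h1 : ∀ᵐ J ∂(law μ), ∀ a : Fin 2 → ℤ, ∀ r, Gd m r (sh a J) :=
          ae_all_iff.2 fun a => (sh_law μ a).quasiMeasurePreserving.ae hgd
        filter_upwards [h1, hgd] with J h1 h2 a e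
        have h3 := (SS_spec (h1 a)).2 e
        have h4 := (SS_spec h2).2 (st a e)
        rw [BB_sh, ← h4] at h3
        exact h3
      · intro w σ h i
        have h1 := (hm i).conv (hk0 i) (sq_of h)
        refine h1.congr fun n => ?_
        rw [disagreement_eq]
        unfold Ds
        congr 1
        refine Finset.sum_congr rfl fun a _ => ?_
        unfold Gq
        refine measureReal_congr ?_
        filter_upwards [hgd] with J hJ
        have h2 := (SS_spec hJ).2 (st a (0, i))
        have h3 : BB m J (st a (0, i)) = sg (m i (sh a J)) := by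
          unfold BB
          rw [st_zero]
        refine eq_iff_iff.2 ?_
        show bp (σ n J) (st a (0, i)) ≠ sg (m i (sh a J)) ↔
          bp (σ n J) (st a (0, i)) ≠ bp (SS m J) (st a (0, i))
        rw [h2, h3]
    · rintro ⟨S, hS, hgs, hcov, hlim⟩
      have hfam : IsFamily μ (fun n J s => -(fun _ _ _ => (0 : ℝ)) n J s) fr :=
        family_of (fr_sq (μ := μ))
      have h1 := hlim _ _ hfam 0
      refine (hm 0).ki_zero_of (fr_sq (μ := μ)) (h := fun J => bp (S J) (0, 0))
        (bpm hS _) ?_ ?_
      · filter_upwards [hgs] with J hJ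
        exact Spin.bp_cases hJ.1 _
      · refine h1.congr fun n => ?_
        rw [disagreement_eq]
        unfold Ds
        congr 1
        refine Finset.sum_congr rfl fun a _ => ?_
        refine measureReal_congr ?_
        filter_upwards [hcov] with J hJ
        have h2 : bp (S (sh a J)) ((0, 0) : E) = bp (S J) (st a (0, 0)) := hJ a (0, 0)
        refine eq_iff_iff.2 ?_
        show bp (fr n J) (st a (0, 0)) ≠ bp (S J) (st a (0, 0)) ↔
          bp (fr n J) (st a (0, 0)) ≠ bp (S (sh a J)) (0, 0)
        rw [h2]

end Pool.Agent.Results.MP_37ff18_mp.UniversalUnpredictability
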